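import Mathlib
set_option autoImplicit false

namespace Pool.Agent.Results.MP_7b4a8e_an.PeriodThree

/-- The sequence is indexed from `0`: `y m` stands for `x (m - k)`. -/
theorem result : ∃ (A p : ℝ) (k : ℕ) (y : ℕ → ℝ), 0 < A ∧ 0 < p ∧ (∀ m, 0 < y m) ∧
    (∀ n, y (n + k + 1) = A / y (n + k) ^ 2 + 1 / y n ^ p) ∧
    IsLeast {N | 1 ≤ N ∧ ∀ m, y (m + N) = y m} 3 := by
  obtain ⟨p, hp0, hp⟩ : ∃ p : ℝ, 0 < p ∧ (2 : ℝ) ^ p = 5 / 2 :=
    ⟨Real.logb 2 (5 / 2), Real.logb_pos (by norm_num) (by norm_num),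
      Real.rpow_logb (by norm_num) (by norm_num) (by norm_num)⟩
  obtain ⟨u, hu0, hu⟩ : ∃ u : ℝ, 0 < u ∧ u ^ p * u = 3 :=
    ⟨3 ^ (p + 1)⁻¹, by positivity, by
      rw [← Real.rpow_add_one (by positivity), Real.rpow_inv_rpow (by norm_num) (by positivity)]⟩
  have h1 : 1 / u ^ p = u / 3 := by rw [← hu]; field_simp
  have h2 : 1 / (u / 2) ^ p = 5 * u / 6 := by
    rw [Real.div_rpow hu0.le (by norm_num), hp, one_div_div, div_eq_mul_one_div, h1]; ring
  refine ⟨u ^ 3 / 6, p, 1, fun m => if m % 3 = 0 then u / 2 else u, by positivity, hp0,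
    fun m => by dsimp only; split_ifs <;> positivity, fun n => ?_, ⟨by norm_num, fun m => by simp⟩, ?_⟩
  · have : n % 3 = 0 ∨ n % 3 = 1 ∨ n % 3 = 2 := by omega
    dsimp only
    rcases this with h | h | h
    · rw [if_neg (by omega), if_neg (by omega), if_pos h, h2]; field_simp; ring
    · rw [if_pos (by omega), if_neg (by omega), if_neg (by omega), h1]; field_simp; ring
    · rw [if_neg (by omega), if_pos (by omega), if_neg (by omega), h1]; field_simp; ring
  · rintro N ⟨h1, h2⟩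
    by_contra h
    have := h2 0
    dsimp only at this
    rw [if_neg (by omega), if_pos rfl] at this
    linarith

end Pool.Agent.Results.MP_7b4a8e_an.PeriodThree
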